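import Mathlib
import Pool.Agent.TH288.BF.Signs
import Pool.Agent.H167R2.KLDist

/-!
# The Komlós bound for almost all coordinates

Vectors of norm at most `1` with entries at most `δ` in absolute value: there is a distribution on
signings for which every coordinate with `N` nonzero entries is `O(1)` except with probability
`N exp (-2 / (δ² (1 + log (1/δ))³))`. There is no condition on the number of vectors or on the
dimension.
-/

namespace Pool.Agent.Results.MP_c81d26_co.AlmostAllCoordinates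

open Finset Pool.Agent.TH288.BF

/-- the bound `O(1 + δ √(log (1/ε)) (1 + log (1/δ))^(3/2))` -/
noncomputable def bound (δ ε : ℝ) : ℝ :=
  3120 + 940000 * (δ * Real.sqrt (Real.log (1 / ε)) * (1 + 2 * Real.log (1 / δ)) ^ (3 / 2 : ℝ))

/-- `w` are probabilities and `x k` are signings -/
def IsDist {K n : ℕ} (w : Fin K → ℝ) (x : Fin K → Fin n → ℝ) : Prop :=
  (∀ k, 0 ≤ w k) ∧ ∑ k, w k = 1 ∧ ∀ k j, x k j = 1 ∨ x k j = -1

theorem dist1 (d n : ℕ) (v : Fin n → EuclideanSpace ℝ (Fin d)) (δ : ℝ) (hv : ∀ j, ‖v j‖ ≤ 1)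
    (hδ0 : 0 < δ) (hδ1 : δ ≤ 1) (hvδ : ∀ j i, |v j i| ≤ δ) (ε : ℝ) (h0 : 0 < ε)
    (h1 : ε ≤ 1 / 2) :
    ∃ (K : ℕ) (w : Fin K → ℝ) (x : Fin K → Fin n → ℝ), IsDist w x ∧
      ∀ i, ∑ k ∈ univ.filter (fun k => bound δ ε < |∑ j, v j i * x k j|), w k ≤
        ε * (univ.filter (fun j => v j i ≠ 0)).card := by
  classical
  have ht : (1 : ℝ) ≤ 1 / δ ^ 2 := by
    rw [le_div_iff₀ (by positivity), one_mul]
    exact pow_le_one₀ hδ0.le hδ1
  obtain ⟨K, w, y, hw, hw1, hy, hB, hε⟩ := H167KL.distribution d n (fun i j => v j i) ε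
    (bound δ ε) (by
      intro p hp
      obtain ⟨x, hx1, hx2, hx3⟩ := H167KL.weighted (fun i j => v j i / δ) (1 / δ ^ 2) ht
        (by
          intro i j
          rw [abs_div, abs_of_pos hδ0, div_le_one hδ0]
          exact hvδ j i)
        (by
          intro j
          have e : ∑ i, (v j i / δ) ^ 2 = (∑ i, (v j i) ^ 2) / δ ^ 2 := by
            rw [Finset.sum_div]
            exact sum_congr rfl fun i _ => by rw [div_pow]
          rw [e]
          apply div_le_div_of_nonneg_right _ (by positivity)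
          have h2 : ‖v j‖ ^ 2 = ∑ i, (v j i) ^ 2 := by
            rw [EuclideanSpace.norm_sq_eq]
            exact sum_congr rfl fun i _ => by rw [Real.norm_eq_abs, sq_abs]
          rw [← h2]
          exact pow_le_one₀ (norm_nonneg _) (hv j)) ε h0 h1 p hp
      refine ⟨x, hx1, fun i => ?_, hx3⟩
      have h3 : |∑ j, v j i / δ * x j| ≤ 3120 * Real.sqrt (1 / δ ^ 2) +
          940000 * Real.sqrt (Real.log (1 / ε)) * (1 + Real.log (1 / δ ^ 2)) ^ (3 / 2 : ℝ) := hx2 i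
      have e1 : ∑ j, v j i * x j = δ * ∑ j, v j i / δ * x j := by
        rw [Finset.mul_sum]
        refine sum_congr rfl fun j _ => ?_
        field_simp
      have e2 : Real.sqrt (1 / δ ^ 2) = 1 / δ := by
        rw [one_div, Real.sqrt_inv, Real.sqrt_sq hδ0.le, one_div]
      have e3 : Real.log (1 / δ ^ 2) = 2 * Real.log (1 / δ) := by
        rw [one_div, one_div, Real.log_inv, Real.log_inv, Real.log_pow]
        push_cast
        ring
      rw [e2, e3] at h3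
      rw [e1, abs_mul, abs_of_pos hδ0]
      unfold bound
      calc δ * |∑ j, v j i / δ * x j| ≤ δ * (3120 * (1 / δ) +
          940000 * Real.sqrt (Real.log (1 / ε)) * (1 + 2 * Real.log (1 / δ)) ^ (3 / 2 : ℝ)) :=
            mul_le_mul_of_nonneg_left h3 hδ0.le
        _ = _ := by field_simp)
  obtain ⟨x, c1, c2⟩ := signs_of_frac (fun i j => v j i) (bound δ ε) ε K w y hw hB hε
  exact ⟨K, w, x, ⟨hw, hw1, c1⟩, c2⟩

/-- `(1 + log t)^3 ≤ 27 t` -/
theorem log_cube (t : ℝ) (ht : 1 ≤ t) : (1 + Real.log t) ^ 3 ≤ 27 * t := by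
  have ht0 : 0 < t := by linarith
  set c : ℝ := t ^ (1 / 3 : ℝ) with hc
  have hc0 : 0 < c := Real.rpow_pos_of_pos ht0 _
  have hc3 : c ^ 3 = t := by
    rw [hc, ← Real.rpow_natCast, ← Real.rpow_mul ht0.le]
    norm_num
  have hlog : Real.log t = 3 * Real.log c := by
    rw [← hc3, Real.log_pow]; norm_num
  have h1 : Real.log c ≤ c - 1 := Real.log_le_sub_one_of_pos hc0
  have h2 : 0 ≤ Real.log t := Real.log_nonneg ht
  have h3 : 1 + Real.log t ≤ 3 * c := by rw [hlog]; linarith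
  calc (1 + Real.log t) ^ 3 ≤ (3 * c) ^ 3 := pow_le_pow_left₀ (by linarith) h3 3
    _ = 27 * c ^ 3 := by ring
    _ = 27 * t := by rw [hc3]

theorem bound_le (δ : ℝ) (hδ0 : 0 < δ) (hδ1 : δ ≤ 1) :
    bound δ (Real.exp (-(2 / (δ ^ 2 * (1 + Real.log (1 / δ)) ^ 3)) - 1)) ≤ 20000000 := by
  have hinv : 1 ≤ 1 / δ := by rw [le_div_iff₀ hδ0]; linarith
  have hl : 0 ≤ Real.log (1 / δ) := Real.log_nonneg hinv
  set l : ℝ := Real.log (1 / δ) with hld
  have hl0 : 0 < 1 + l := by linarith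
  have h1 : Real.log (1 / Real.exp (-(2 / (δ ^ 2 * (1 + l) ^ 3)) - 1)) =
      2 / (δ ^ 2 * (1 + l) ^ 3) + 1 := by
    rw [one_div, Real.log_inv, Real.log_exp]; ring
  unfold bound
  rw [h1]
  have h2 : (1 + 2 * l) ^ (3 / 2 : ℝ) = Real.sqrt ((1 + 2 * l) ^ 3) := by
    rw [Real.sqrt_eq_rpow, ← Real.rpow_natCast, ← Real.rpow_mul (by linarith)]
    norm_num
  have h3 : δ * Real.sqrt (2 / (δ ^ 2 * (1 + l) ^ 3) + 1) * Real.sqrt ((1 + 2 * l) ^ 3) =
      Real.sqrt (δ ^ 2 * (2 / (δ ^ 2 * (1 + l) ^ 3) + 1) * (1 + 2 * l) ^ 3) := by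
    rw [Real.sqrt_mul (by positivity), Real.sqrt_mul (by positivity), Real.sqrt_sq hδ0.le]
  have h4 : δ ^ 2 * (2 / (δ ^ 2 * (1 + l) ^ 3) + 1) * (1 + 2 * l) ^ 3 ≤ 256 := by
    have h5 : (1 + 2 * l) ^ 3 ≤ 8 * (1 + l) ^ 3 := by
      calc (1 + 2 * l) ^ 3 ≤ (2 * (1 + l)) ^ 3 := pow_le_pow_left₀ (by linarith) (by linarith) 3
        _ = 8 * (1 + l) ^ 3 := by ring
    have h6 : δ ^ 2 * (2 / (δ ^ 2 * (1 + l) ^ 3) + 1) = 2 / (1 + l) ^ 3 + δ ^ 2 := by
      field_simp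
    rw [h6]
    have h7 : (1 + l) ^ 3 ≤ 27 * (1 / δ) := log_cube (1 / δ) hinv
    have h8 : δ ^ 2 * (1 + l) ^ 3 ≤ 27 := by
      calc δ ^ 2 * (1 + l) ^ 3 ≤ δ ^ 2 * (27 * (1 / δ)) :=
            mul_le_mul_of_nonneg_left h7 (by positivity)
        _ = 27 * δ := by field_simp
        _ ≤ 27 := by linarith
    calc (2 / (1 + l) ^ 3 + δ ^ 2) * (1 + 2 * l) ^ 3 ≤
        (2 / (1 + l) ^ 3 + δ ^ 2) * (8 * (1 + l) ^ 3) :=
          mul_le_mul_of_nonneg_left h5 (by positivity)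
      _ = 16 + 8 * (δ ^ 2 * (1 + l) ^ 3) := by field_simp; ring
      _ ≤ 256 := by linarith
  rw [h2, h3]
  have h5 : Real.sqrt (δ ^ 2 * (2 / (δ ^ 2 * (1 + l) ^ 3) + 1) * (1 + 2 * l) ^ 3) ≤ 16 := by
    rw [Real.sqrt_le_left (by norm_num)]
    norm_num
    exact h4
  linarith

theorem result :
    (∀ (d n : ℕ) (v : Fin n → EuclideanSpace ℝ (Fin d)) (δ : ℝ), (∀ j, ‖v j‖ ≤ 1) →
      0 < δ → δ ≤ 1 → (∀ j i, |v j i| ≤ δ) → ∀ ε : ℝ, 0 < ε → ε ≤ 1 / 2 →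
      ∃ (K : ℕ) (w : Fin K → ℝ) (x : Fin K → Fin n → ℝ), IsDist w x ∧
        ∀ i, ∑ k ∈ univ.filter (fun k => bound δ ε < |∑ j, v j i * x k j|), w k ≤
          ε * (univ.filter (fun j => v j i ≠ 0)).card) ∧
    (∃ C : ℝ, ∀ (d n : ℕ) (v : Fin n → EuclideanSpace ℝ (Fin d)) (δ : ℝ), (∀ j, ‖v j‖ ≤ 1) →
      0 < δ → δ ≤ 1 → (∀ j i, |v j i| ≤ δ) → ∀ p : Fin d → ℝ, (∀ i, 0 ≤ p i) →
      ∃ x : Fin n → ℝ, (∀ j, x j = 1 ∨ x j = -1) ∧
        ∑ i ∈ univ.filter (fun i => C < |∑ j, v j i * x j|), p i ≤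
          Real.exp (-(2 / (δ ^ 2 * (1 + Real.log (1 / δ)) ^ 3))) *
            ∑ i, p i * (univ.filter (fun j => v j i ≠ 0)).card) := by
  classical
  refine ⟨fun d n v δ hv h0 h1 hδ ε e0 e1 => dist1 d n v δ hv h0 h1 hδ ε e0 e1, 20000000, ?_⟩
  intro d n v δ hv hδ0 hδ1 hvδ p hp
  have hinv : 1 ≤ 1 / δ := by rw [le_div_iff₀ hδ0]; linarith
  have hl : 0 ≤ Real.log (1 / δ) := Real.log_nonneg hinv
  set ε : ℝ := Real.exp (-(2 / (δ ^ 2 * (1 + Real.log (1 / δ)) ^ 3)) - 1) with hε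
  have hL : 0 ≤ 2 / (δ ^ 2 * (1 + Real.log (1 / δ)) ^ 3) := by positivity
  have he1 : ε ≤ 1 / 2 := by
    have h1 : ε ≤ Real.exp (-1) := by
      rw [hε]
      apply Real.exp_le_exp.2
      linarith
    have h2 : Real.exp (-1) ≤ 1 / 2 := by
      rw [Real.exp_neg, one_div]
      apply inv_anti₀ (by norm_num)
      have := Real.add_one_le_exp (1 : ℝ)
      linarith
    exact h1.trans h2
  have he2 : ε ≤ Real.exp (-(2 / (δ ^ 2 * (1 + Real.log (1 / δ)) ^ 3))) := by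
    rw [hε]
    apply Real.exp_le_exp.2
    linarith
  obtain ⟨K, w, x, ⟨hw, hw1, hx⟩, hprob⟩ := dist1 d n v δ hv hδ0 hδ1 hvδ ε (Real.exp_pos _) he1
  obtain ⟨k, hk⟩ := one_of_signs (fun i j => v j i) (bound δ ε) ε K w x hw hw1
    (fun i => ((univ.filter (fun j => v j i ≠ 0)).card : ℝ)) hprob p hp
  have hb : bound δ ε ≤ 20000000 := bound_le δ hδ0 hδ1
  refine ⟨x k, hx k, ?_⟩
  have hsum : 0 ≤ ∑ i, p i * ((univ.filter (fun j => v j i ≠ 0)).card : ℝ) :=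
    sum_nonneg fun i _ => mul_nonneg (hp i) (by positivity)
  calc ∑ i ∈ univ.filter (fun i => 20000000 < |∑ j, v j i * x k j|), p i
      ≤ ∑ i ∈ univ.filter (fun i => bound δ ε < |∑ j, v j i * x k j|), p i := by
        apply Finset.sum_le_sum_of_subset_of_nonneg
        · intro i hi
          rw [mem_filter] at hi ⊢
          exact ⟨hi.1, lt_of_le_of_lt hb hi.2⟩
        · intro i _ _
          exact hp i
    _ ≤ ε * ∑ i, p i * (univ.filter (fun j => v j i ≠ 0)).card := hk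
    _ ≤ _ := mul_le_mul_of_nonneg_right he2 hsum

end Pool.Agent.Results.MP_c81d26_co.AlmostAllCoordinates
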