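import Mathlib
import Pool.Agent.H663R5.BF.Struct

set_option autoImplicit false

/-!
# The Komlós conjecture for vector systems with a locally sparse incidence graph

For vectors `v_1, …, v_n` of Euclidean norm at most one consider the bipartite incidence graph:
the pairs (vector `i`, coordinate `k`) with `v i k ≠ 0`, and for `τ ≥ 0` its subgraph of the pairs
with `|v i k| > τ`.

* If any `s` vectors and any `s` coordinates span at most `D s` nonzero entries, there is a signing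
  of value at most `√D`.
* If the nonzero entries can be split into two classes, the first with at most `p` entries in every
  vector, the second with at most `q` entries in every coordinate, then `D = p + q`: there is a
  signing of value at most `√(p + q)`.
* If for every `τ ∈ [0, 1)` any `s` vectors and any `s` coordinates span at most `φ(τ) s` entries
  of absolute value `> τ`, there is a signing of value at most `∫₀¹ φ`.

There is no bound on the number of nonzero entries of a vector or of a coordinate.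
The proof: the starting theorem `H294BF.hall_signing` (Tucker's lemma).
-/

namespace Pool.Agent.Results.MP_c81d26_co.LocallySparse

open Finset MeasureTheory

/-- The number of entries of absolute value `> τ` of the vectors of `V` in the coordinates of `W`. -/
noncomputable def entries {d n : ℕ} (v : Fin n → EuclideanSpace ℝ (Fin d)) (τ : ℝ)
    (V : Finset (Fin n)) (W : Finset (Fin d)) : ℕ :=
  ((V ×ˢ W).filter (fun p => τ < |v p.1 p.2|)).card

/-- There are signs for which all coordinates of the signed sum are at most `c`. -/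
def HasSigning {d n : ℕ} (v : Fin n → EuclideanSpace ℝ (Fin d)) (c : ℝ) : Prop :=
  ∃ x : Fin n → ℝ, (∀ i, x i = 1 ∨ x i = -1) ∧ ∀ k, |∑ i, x i * v i k| ≤ c

/-- the consequence of the starting theorem -/
theorem signing_of {d n : ℕ} (v : Fin n → EuclideanSpace ℝ (Fin d)) (c : ℝ) (hc : 0 ≤ c)
    (h : ∀ (V : Finset (Fin n)) (W : Finset (Fin d)), V.card = W.card → V.Nonempty →
      ∑ k ∈ W, ∑ i ∈ V, |v i k| ≤ c * V.card) : HasSigning v c := by
  classical
  obtain ⟨x, hx⟩ := H294BF.hall_signing (fun k i => v i k) (fun _ => c) (fun _ => hc) (by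
    intro S hS
    by_contra hcon
    push Not at hcon
    obtain ⟨W, hW, hWc⟩ := Finset.exists_subset_card_eq hcon
    have h1 := h S W hWc.symm hS
    have h2 : ∑ k ∈ W, c < ∑ k ∈ W, ∑ i ∈ S, |v i k| := by
      refine Finset.sum_lt_sum_of_nonempty ?_ fun k hk => ?_
      · rw [← Finset.card_pos, hWc]
        exact Finset.card_pos.2 hS
      · exact (Finset.mem_filter.1 (hW hk)).2
    rw [Finset.sum_const, hWc, nsmul_eq_mul] at h2
    linarith)
  refine ⟨fun i => H294BF.sg (x i), fun i => ?_, fun k => ?_⟩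
  · unfold H294BF.sg
    by_cases hb : x i = true
    · exact Or.inl (if_pos hb)
    · exact Or.inr (if_neg hb)
  · have := hx k
    unfold H294BF.row at this
    refine le_trans (le_of_eq ?_) this
    congr 1
    exact Finset.sum_congr rfl fun i _ => mul_comm _ _

theorem sum_sq_le {d n : ℕ} (v : Fin n → EuclideanSpace ℝ (Fin d)) (hv : ∀ i, ‖v i‖ ≤ 1)
    (V : Finset (Fin n)) (W : Finset (Fin d)) :
    ∑ p ∈ V ×ˢ W, |v p.1 p.2| ^ 2 ≤ V.card := by
  rw [Finset.sum_product]
  have h1 : ∀ i ∈ V, ∑ k ∈ W, |v i k| ^ 2 ≤ 1 := by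
    intro i _
    have h2 : ‖v i‖ ^ 2 ≤ 1 := pow_le_one₀ (norm_nonneg _) (hv i)
    rw [EuclideanSpace.norm_sq_eq] at h2
    refine le_trans ?_ h2
    simp_rw [Real.norm_eq_abs]
    exact Finset.sum_le_sum_of_subset_of_nonneg (Finset.subset_univ _) fun k _ _ => sq_nonneg _
  calc ∑ i ∈ V, ∑ k ∈ W, |v i k| ^ 2 ≤ ∑ i ∈ V, (1 : ℝ) := Finset.sum_le_sum h1
    _ = V.card := by simp

theorem sum_eq_prod {d n : ℕ} (v : Fin n → EuclideanSpace ℝ (Fin d))
    (V : Finset (Fin n)) (W : Finset (Fin d)) :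
    ∑ k ∈ W, ∑ i ∈ V, |v i k| = ∑ p ∈ V ×ˢ W, |v p.1 p.2| := by
  rw [Finset.sum_product, Finset.sum_comm]

/-- Part 1. -/
theorem part1 {d n : ℕ} (v : Fin n → EuclideanSpace ℝ (Fin d)) (hv : ∀ i, ‖v i‖ ≤ 1) (D : ℝ)
    (hD : ∀ V W, V.card = W.card → (entries v 0 V W : ℝ) ≤ D * V.card) :
    HasSigning v (Real.sqrt D) := by
  refine signing_of v _ (Real.sqrt_nonneg _) fun V W hVW hV => ?_
  have hs : (0 : ℝ) < V.card := by exact_mod_cast Finset.card_pos.2 hV
  have h1 := hD V W hVW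
  have hD0 : 0 ≤ D := by
    have h2 : (0 : ℝ) ≤ D * V.card := le_trans (Nat.cast_nonneg _) h1
    exact nonneg_of_mul_nonneg_left h2 hs
  rw [sum_eq_prod]
  set E := (V ×ˢ W).filter (fun p => 0 < |v p.1 p.2|) with hE
  have h3 : ∑ p ∈ V ×ˢ W, |v p.1 p.2| = ∑ p ∈ E, |v p.1 p.2| := by
    rw [hE, Finset.sum_filter]
    refine Finset.sum_congr rfl fun p _ => ?_
    split_ifs with h
    · rfl
    · exact le_antisymm (not_lt.1 h) (abs_nonneg _)
  have h4 : (∑ p ∈ E, |v p.1 p.2|) ^ 2 ≤ E.card * ∑ p ∈ E, |v p.1 p.2| ^ 2 :=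
    sq_sum_le_card_mul_sum_sq
  have h5 : ∑ p ∈ E, |v p.1 p.2| ^ 2 ≤ V.card :=
    le_trans (Finset.sum_le_sum_of_subset_of_nonneg (Finset.filter_subset _ _)
      fun p _ _ => sq_nonneg _) (sum_sq_le v hv V W)
  have h6 : (E.card : ℝ) ≤ D * V.card := h1
  rw [h3]
  have h7 : (∑ p ∈ E, |v p.1 p.2|) ^ 2 ≤ (Real.sqrt D * V.card) ^ 2 := by
    rw [mul_pow, Real.sq_sqrt hD0]
    calc (∑ p ∈ E, |v p.1 p.2|) ^ 2 ≤ E.card * ∑ p ∈ E, |v p.1 p.2| ^ 2 := h4
      _ ≤ (D * V.card) * V.card :=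
          mul_le_mul h6 h5 (Finset.sum_nonneg fun p _ => sq_nonneg _) (by positivity)
      _ = D * (V.card : ℝ) ^ 2 := by ring
  exact abs_le_of_sq_le_sq' h7 (by positivity) |>.2

/-- Part 2. -/
theorem part2 {d n : ℕ} (v : Fin n → EuclideanSpace ℝ (Fin d)) (hv : ∀ i, ‖v i‖ ≤ 1) (p q : ℕ)
    (F : Finset (Fin n × Fin d))
    (hp : ∀ i, (univ.filter (fun k => v i k ≠ 0 ∧ (i, k) ∈ F)).card ≤ p)
    (hq : ∀ k, (univ.filter (fun i => v i k ≠ 0 ∧ (i, k) ∉ F)).card ≤ q) :
    HasSigning v (Real.sqrt (p + q)) := by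
  classical
  refine part1 v hv _ fun V W hVW => ?_
  have h1 : entries v 0 V W ≤ ∑ i ∈ V, (univ.filter (fun k => v i k ≠ 0 ∧ (i, k) ∈ F)).card +
      ∑ k ∈ W, (univ.filter (fun i => v i k ≠ 0 ∧ (i, k) ∉ F)).card := by
    have h2 : ∑ i ∈ V, (univ.filter (fun k => v i k ≠ 0 ∧ (i, k) ∈ F)).card =
        (V.sigma fun i => univ.filter (fun k => v i k ≠ 0 ∧ (i, k) ∈ F)).card :=
      (Finset.card_sigma _ _).symm
    have h3 : ∑ k ∈ W, (univ.filter (fun i => v i k ≠ 0 ∧ (i, k) ∉ F)).card =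
        (W.sigma fun k => univ.filter (fun i => v i k ≠ 0 ∧ (i, k) ∉ F)).card :=
      (Finset.card_sigma _ _).symm
    unfold entries
    have h4 : (V ×ˢ W).filter (fun p => 0 < |v p.1 p.2|) ⊆
        ((V.sigma fun i => univ.filter (fun k => v i k ≠ 0 ∧ (i, k) ∈ F)).image
          (fun s => (s.1, s.2))) ∪
        ((W.sigma fun k => univ.filter (fun i => v i k ≠ 0 ∧ (i, k) ∉ F)).image
          (fun s => (s.2, s.1))) := by
      rintro ⟨i, k⟩ hik
      rw [Finset.mem_filter, Finset.mem_product] at hik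
      obtain ⟨⟨hi, hk⟩, h0⟩ := hik
      have h0' : v i k ≠ 0 := abs_pos.1 h0
      rw [Finset.mem_union, Finset.mem_image, Finset.mem_image]
      by_cases hF : (i, k) ∈ F
      · exact Or.inl ⟨⟨i, k⟩, by simp [hi, h0', hF], rfl⟩
      · exact Or.inr ⟨⟨k, i⟩, by simp [hk, h0', hF], rfl⟩
    refine (Finset.card_le_card h4).trans ((Finset.card_union_le _ _).trans ?_)
    rw [h2, h3]
    exact add_le_add Finset.card_image_le Finset.card_image_le
  have h2 : entries v 0 V W ≤ p * V.card + q * W.card := by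
    refine h1.trans (add_le_add ?_ ?_)
    · calc _ ≤ ∑ i ∈ V, p := Finset.sum_le_sum fun i _ => hp i
        _ = p * V.card := by rw [Finset.sum_const, smul_eq_mul, mul_comm]
    · calc _ ≤ ∑ i ∈ W, q := Finset.sum_le_sum fun i _ => hq i
        _ = q * W.card := by rw [Finset.sum_const, smul_eq_mul, mul_comm]
  rw [← hVW] at h2
  have h3 : (entries v 0 V W : ℝ) ≤ ((p * V.card + q * V.card : ℕ) : ℝ) := by exact_mod_cast h2
  refine h3.trans (le_of_eq ?_)
  push_cast
  ring

theorem int_indicator (c : ℝ) (h0 : 0 ≤ c) (h1 : c ≤ 1) :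
    ∫ τ in Set.Ioc (0 : ℝ) 1, (Set.Iio c).indicator (fun _ => (1 : ℝ)) τ = c := by
  rw [setIntegral_indicator measurableSet_Iio]
  have h2 : Set.Ioc (0 : ℝ) 1 ∩ Set.Iio c = Set.Ioo 0 c := by
    ext x
    simp only [Set.mem_inter_iff, Set.mem_Ioc, Set.mem_Iio, Set.mem_Ioo]
    constructor
    · rintro ⟨⟨h, _⟩, h'⟩; exact ⟨h, h'⟩
    · rintro ⟨h, h'⟩; exact ⟨⟨h, by linarith⟩, h'⟩
  rw [h2]
  simp [h0]

/-- Part 3. -/
theorem part3 {d n : ℕ} (v : Fin n → EuclideanSpace ℝ (Fin d)) (hv : ∀ i, ‖v i‖ ≤ 1)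
    (φ : ℝ → ℝ) (hφ0 : ∀ τ, 0 ≤ φ τ) (hφ : IntegrableOn φ (Set.Ioc 0 1))
    (h : ∀ τ, 0 ≤ τ → τ < 1 → ∀ V W, V.card = W.card → (entries v τ V W : ℝ) ≤ φ τ * V.card) :
    HasSigning v (∫ τ in Set.Ioc (0 : ℝ) 1, φ τ) := by
  classical
  have habs : ∀ i k, |v i k| ≤ 1 := by
    intro i k
    have := PiLp.norm_apply_le (v i) k
    rw [Real.norm_eq_abs] at this
    exact this.trans (hv i)
  refine signing_of v _ (setIntegral_nonneg measurableSet_Ioc fun τ _ => hφ0 τ) fun V W hVW _ => ?_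
  rw [sum_eq_prod]
  have h1 : ∑ p ∈ V ×ˢ W, |v p.1 p.2| = ∫ τ in Set.Ioc (0 : ℝ) 1,
      ∑ p ∈ V ×ˢ W, (Set.Iio |v p.1 p.2|).indicator (fun _ => (1 : ℝ)) τ := by
    rw [integral_finsetSum]
    · exact Finset.sum_congr rfl fun p _ => (int_indicator _ (abs_nonneg _) (habs _ _)).symm
    · intro p _
      refine Integrable.indicator ?_ measurableSet_Iio
      exact integrable_const _
  rw [h1, mul_comm, ← integral_const_mul]
  refine setIntegral_mono_on ?_ (hφ.const_mul _) measurableSet_Ioc ?_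
  · refine integrable_finsetSum _ fun p _ => ?_
    refine Integrable.indicator ?_ measurableSet_Iio
    exact integrable_const _
  · intro τ hτ
    have h2 : ∑ p ∈ V ×ˢ W, (Set.Iio |v p.1 p.2|).indicator (fun _ => (1 : ℝ)) τ =
        (entries v τ V W : ℝ) := by
      unfold entries
      rw [Finset.card_filter]
      push_cast
      refine Finset.sum_congr rfl fun p _ => ?_
      rw [Set.indicator_apply]
      simp only [Set.mem_Iio]
    rw [h2]
    rcases lt_or_eq_of_le hτ.2 with h3 | h3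
    · rw [mul_comm]
      exact h τ hτ.1.le h3 V W hVW
    · have h4 : entries v τ V W = 0 := by
        unfold entries
        rw [Finset.card_eq_zero, Finset.filter_eq_empty_iff]
        intro p _
        rw [h3]
        exact not_lt.2 (habs _ _)
      rw [h4]
      exact_mod_cast mul_nonneg (Nat.cast_nonneg _) (hφ0 τ)

/-- **Main theorem.** Komlós for vector systems with a locally sparse incidence graph. -/
theorem result (d n : ℕ) (v : Fin n → EuclideanSpace ℝ (Fin d)) (hv : ∀ i, ‖v i‖ ≤ 1) :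
    (∀ D : ℝ, (∀ V W, V.card = W.card → (entries v 0 V W : ℝ) ≤ D * V.card) →
      HasSigning v (Real.sqrt D)) ∧
    (∀ (p q : ℕ) (F : Finset (Fin n × Fin d)),
      (∀ i, (univ.filter (fun k => v i k ≠ 0 ∧ (i, k) ∈ F)).card ≤ p) →
      (∀ k, (univ.filter (fun i => v i k ≠ 0 ∧ (i, k) ∉ F)).card ≤ q) →
      HasSigning v (Real.sqrt (p + q))) ∧
    (∀ φ : ℝ → ℝ, (∀ τ, 0 ≤ φ τ) → IntegrableOn φ (Set.Ioc 0 1) →
      (∀ τ, 0 ≤ τ → τ < 1 → ∀ V W, V.card = W.card → (entries v τ V W : ℝ) ≤ φ τ * V.card) →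
      HasSigning v (∫ τ in Set.Ioc (0 : ℝ) 1, φ τ)) :=
  ⟨fun D hD => part1 v hv D hD, fun p q F hp hq => part2 v hv p q F hp hq,
    fun φ h0 h1 h2 => part3 v hv φ h0 h1 h2⟩

end Pool.Agent.Results.MP_c81d26_co.LocallySparse
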