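import Pool.Agent.TH360.Kom.Main

/-!
# The Komlós problem for vector systems with an elementary abelian 2-group of symmetries

Let `H` be a group of exponent 2 acting freely on the coordinates and on the indices of a family of
vectors of Euclidean norm at most one, and let the family be invariant. Let `r` be the number of
orbits of vectors; the order of `H` is arbitrary.

(1) If all families of at most `144 r ^ 10` vectors of norm at most one (without symmetries) have
signings of value at most `B`, then the given family has a signing of value at most `3 B`.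

(2) So the given family has a signing of value at most `C (1 + log r) ^ (1 / 4)`.

The start result `InvolutiveOrbits` has `(1 + log r) ^ (5 / 4)` in (2).

Proof. The signs are `χ (a) σ_j (p (a))`, `a ∈ H`, `j` an orbit, with a character `χ` and a
homomorphism `p` from `H` to `(ZMod 2) ^ d`, `2 ^ d ≈ 100 r ^ 9`. The characters that occur form an
affine subspace, chosen (one dimension at a time, by a second moment) such that for every `j` the
mean of the squared norms of the Fourier coefficients of the `j`-th column is bounded, up to at most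
`2 r ^ 2` heavy characters whose coefficients are not larger than `√(2 r 2 ^ d)`. The signs `σ` are
chosen by the hypothesis, applied to the truncated system extended by the coordinates of `σ_j` at
the heavy characters; they make these so small that the heavy part is negligible.
-/

set_option autoImplicit false

namespace Pool.Agent.Results.MP_c81d26_co.OrbitTransference

open MulAction

/-- `H` is a group in which every element has order at most `2`; it acts freely on the set `D` of
coordinates and freely on the set `N` of indices of the vectors, and the family of vectors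
`v : N → (D → ℝ)` is invariant under the two actions. -/
def InvolutiveSymmetry (H D N : Type) [Group H] [MulAction H D] [MulAction H N]
    (v : N → D → ℝ) : Prop :=
  (∀ a : H, a * a = 1) ∧ (∀ (a : H) (k : D), a • k = k → a = 1) ∧
    (∀ (a : H) (j : N), a • j = j → a = 1) ∧ ∀ (a : H) (j : N) (k : D), v (a • j) (a • k) = v j k

/-- number of orbits of `H` on the index set `N` -/
noncomputable def orbits (H N : Type) [Group H] [MulAction H N] : ℕ :=
  Nat.card (orbitRel.Quotient H N)

theorem result :
    (∀ (r : ℕ) (B : ℝ),
      (∀ (d n : ℕ) (v : Fin n → Fin d → ℝ), n ≤ 144 * r ^ 10 → (∀ j, ∑ k, v j k ^ 2 ≤ 1) →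
        ∃ ε : Fin n → ℝ, (∀ j, ε j = 1 ∨ ε j = -1) ∧ ∀ k, |∑ j, ε j * v j k| ≤ B) →
      ∀ (H D N : Type) [Group H] [Finite H] [Fintype D] [Fintype N] [MulAction H D]
        [MulAction H N] (v : N → D → ℝ), InvolutiveSymmetry H D N v → orbits H N ≤ r →
        (∀ j, ∑ k, v j k ^ 2 ≤ 1) →
        ∃ ε : N → ℝ, (∀ j, ε j = 1 ∨ ε j = -1) ∧ ∀ k, |∑ j, ε j * v j k| ≤ 3 * B) ∧
    ∃ C : ℝ, ∀ (H D N : Type) [Group H] [Finite H] [Fintype D] [Fintype N] [MulAction H D]
      [MulAction H N] (v : N → D → ℝ), InvolutiveSymmetry H D N v → (∀ j, ∑ k, v j k ^ 2 ≤ 1) →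
      ∃ ε : N → ℝ, (∀ j, ε j = 1 ∨ ε j = -1) ∧
        ∀ k, |∑ j, ε j * v j k| ≤ C * (1 + Real.log (orbits H N)) ^ (1 / 4 : ℝ) := by
  refine ⟨?_, 400000000, ?_⟩
  · intro r B hB H D N _ _ _ _ _ _ v hs hr hcol
    have h1 : Pool.Agent.TH360.Kom.Good (144 * r ^ 10) B := Pool.Agent.TH360.Kom.good_of_fin hB
    obtain ⟨ε, h2, h3⟩ := Pool.Agent.TH360.Kom.action (H := H) (R := D) (C := N) hs.1 hs.2.1
      hs.2.2.1 (fun k j => v j k) (fun a k j => hs.2.2.2 a j k) hcol B
      (Pool.Agent.TH360.Kom.good_mono h1
        (Nat.mul_le_mul_left _ (Nat.pow_le_pow_left hr 10)))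
    refine ⟨ε, h2, fun k => ?_⟩
    simp_rw [mul_comm (ε _)]
    exact h3 k
  · intro H D N _ _ _ _ _ _ v hs hcol
    obtain ⟨ε, h2, h3⟩ := Pool.Agent.TH360.Kom.explicit (H := H) (R := D) (C := N) hs.1 hs.2.1
      hs.2.2.1 (fun k j => v j k) (fun a k j => hs.2.2.2 a j k) hcol
    refine ⟨ε, h2, fun k => ?_⟩
    simp_rw [mul_comm (ε _)]
    exact h3 k

end Pool.Agent.Results.MP_c81d26_co.OrbitTransference
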